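import Pool.Agent.LPW.StmtsD

set_option autoImplicit false

namespace Pool.Agent.LPW.H52

open Pool.Agent.LPW

theorem max_le {ι : Type} [Fintype ι] (Λ : ι → ι → ℝ) (ω : ι)
    (h0 : ∀ i j, i ≠ j → 0 ≤ Λ i j)
    (h2 : ∀ j, j ≠ ω → 0 < Λ ω j ∨ ∃ j', 0 < Λ j' j ∧ 0 < Λ ω j') (Y : ι → ℝ) (hω : Y ω = 0)
    (hY : ∀ j, j ≠ ω → ∑ i, (Y i - Y j) * Λ i j = 0) : ∀ i, Y i ≤ 0 := by
  classical
  have : Nonempty ι := ⟨ω⟩
  obtain ⟨m, hm⟩ := Finite.exists_max Y
  by_contra hcon
  push Not at hcon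
  obtain ⟨i₀, hi₀⟩ := hcon
  have hpos : 0 < Y m := lt_of_lt_of_le hi₀ (hm i₀)
  have key : ∀ j, Y j = Y m → ∀ i, 0 < Λ i j → Y i = Y m := by
    intro j hj i hi
    have hjω : j ≠ ω := by
      rintro rfl
      rw [hω] at hj
      linarith
    have h3 : ∀ i ∈ Finset.univ, (Y i - Y j) * Λ i j ≤ 0 := by
      intro i _
      by_cases hij : i = j
      · subst hij
        rw [sub_self, zero_mul]
      · refine mul_nonpos_of_nonpos_of_nonneg ?_ (h0 i j hij)
        rw [hj]
        linarith [hm i]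
    have h4 := (Finset.sum_eq_zero_iff_of_nonpos h3).mp (hY j hjω) i (Finset.mem_univ _)
    rcases mul_eq_zero.mp h4 with h5 | h5
    · linarith
    · linarith
  have hmω : m ≠ ω := by
    rintro rfl
    linarith
  rcases h2 m hmω with h | ⟨j', h, h'⟩
  · have := key m rfl ω h
    linarith
  · have h6 := key m rfl j' h
    have h7 := key j' h6 ω h'
    linarith

theorem hrm : HrmStmt := by
  intro ι _ _ Λ ω h0 h1 h2 hdet
  obtain ⟨y, hy0, hy⟩ := Matrix.exists_vecMul_eq_zero_iff.mpr hdet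
  have hyj : ∀ j : {i // i ≠ ω}, ∑ i : {i // i ≠ ω}, y i * Λ i j = 0 := by
    intro j
    have := congrFun hy j
    exact this
  set Y : ι → ℝ := fun i => if h : i ≠ ω then y ⟨i, h⟩ else 0 with hYdef
  have hYω : Y ω = 0 := by
    rw [hYdef]
    simp
  have hYs : ∀ j, j ≠ ω → ∑ i, Y i * Λ i j = 0 := by
    intro j hj
    rw [← hyj ⟨j, hj⟩]
    have h3 : ∑ i, Y i * Λ i j = ∑ i ∈ Finset.univ.filter (fun i => i ≠ ω), Y i * Λ i j := by
      symm
      apply Finset.sum_filter_of_ne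
      intro i _ hi hiω
      rw [hiω, hYω, zero_mul] at hi
      exact hi rfl
    rw [h3, ← Finset.sum_subtype_eq_sum_filter]
    refine Finset.sum_bij (fun a _ => (⟨a.1, by simpa using a.2⟩ : {i // i ≠ ω})) ?_ ?_ ?_ ?_
    · intro a _
      exact Finset.mem_univ _
    · intro a _ b _ hab
      exact Subtype.ext (congrArg Subtype.val hab)
    · intro b _
      exact ⟨⟨b.1, by simpa using b.2⟩, by simp, rfl⟩
    · intro a _
      have ha : (a : ι) ≠ ω := by simpa using a.2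
      rw [hYdef]
      simp only
      rw [dif_pos ha]
  have hYd : ∀ j, j ≠ ω → ∑ i, (Y i - Y j) * Λ i j = 0 := by
    intro j hj
    simp only [sub_mul]
    rw [Finset.sum_sub_distrib, hYs j hj, ← Finset.mul_sum, h1 j, mul_zero, sub_zero]
  have hle := max_le Λ ω h0 h2 Y hYω hYd
  have hge := max_le Λ ω h0 h2 (fun i => -Y i) (by rw [hYω, neg_zero]) (by
    intro j hj
    have := hYd j hj
    rw [← neg_zero, ← this, ← Finset.sum_neg_distrib]
    refine Finset.sum_congr rfl fun i _ => ?_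
    ring)
  apply hy0
  funext i
  have h3 : Y i = 0 := le_antisymm (hle i) (by have := hge i; linarith)
  rw [hYdef] at h3
  simp only at h3
  rw [dif_pos i.2] at h3
  exact h3

end Pool.Agent.LPW.H52
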