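import Pool.Agent.LPW.StmtsS

set_option autoImplicit false

namespace Pool.Agent.LPW.H52

open Pool.Agent.LPW

theorem ld_eq (d : ℕ) : 2 * Ld d = (d + 1) * (d + 2) := by
  induction d with
  | zero => rfl
  | succ d ih =>
    have h : Ld (d + 1) = Ld d + (d + 1 + 1) := by
      unfold Ld
      rw [Finset.sum_range_succ]
    rw [h, mul_add, ih]
    ring

theorem sd_le (d : ℕ) : Sd d ≤ (d + 1) ^ 3 := by
  unfold Sd
  have h : ∀ c ∈ Finset.range (d + 1), c * (c + 1) ≤ (d + 1) ^ 2 := by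
    intro c hc
    have hc' : c ≤ d := Nat.lt_succ_iff.mp (Finset.mem_range.mp hc)
    nlinarith
  refine (Finset.sum_le_card_nsmul _ _ _ h).trans (le_of_eq ?_)
  rw [Finset.card_range, smul_eq_mul]
  ring

theorem ee_ge (m L : ℕ) (hm : 0 < m) :
    (L : ℝ) * ((L : ℝ) - 1) / 2 - m * L ≤ m * (ee m L : ℝ) := by
  induction L with
  | zero =>
    unfold ee
    simp
  | succ L ih =>
    have h : ee m (L + 1) = ee m L + L / m := by
      unfold ee
      rw [Finset.sum_range_succ]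
    have h1 : (L : ℝ) - m ≤ m * ((L / m : ℕ) : ℝ) := by
      have h2 := Nat.div_add_mod L m
      have h3 := Nat.mod_lt L hm
      have h4 : (L : ℝ) = m * ((L / m : ℕ) : ℝ) + ((L % m : ℕ) : ℝ) := by
        exact_mod_cast h2.symm
      have h5 : ((L % m : ℕ) : ℝ) < m := by exact_mod_cast h3
      linarith
    rw [h]
    push_cast
    nlinarith [ih, h1]

theorem num : NumStmt := by
  intro p m hp hm ε hε
  obtain ⟨d, hd⟩ := exists_nat_ge (max (8 * (m : ℝ) + 4) (16 * m / ε))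
  have hd1 : 8 * (m : ℝ) + 4 ≤ d := (le_max_left _ _).trans hd
  have hd2 : 16 * (m : ℝ) / ε ≤ d := (le_max_right _ _).trans hd
  have hmr : (1 : ℝ) ≤ m := by exact_mod_cast hm
  set L := Ld d with hL
  set E := ee m L with hE
  set x : ℝ := (d : ℝ) + 1 with hx
  have hxd : (d : ℝ) ≤ x := by rw [hx]; linarith
  have hx1 : 1 ≤ x := by rw [hx]; linarith [Nat.cast_nonneg (α := ℝ) d]
  have hLx : 2 * (L : ℝ) = x * (x + 1) := by
    have := ld_eq d
    rw [hx]
    have h2 : ((2 * Ld d : ℕ) : ℝ) = (((d + 1) * (d + 2) : ℕ) : ℝ) := by rw [this]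
    push_cast at h2
    rw [hL]
    linarith
  have hLx2 : x ^ 2 / 2 ≤ L := by nlinarith
  have hxx : 8 * (m : ℝ) + 4 ≤ x ^ 2 := by nlinarith
  have hEx : x ^ 4 / 16 ≤ m * (E : ℝ) := by
    refine le_trans ?_ (ee_ge m L hm)
    have h1 : x ^ 2 / 8 ≤ ((L : ℝ) - 1) / 2 - m := by linarith
    have h2 : (L : ℝ) * ((L : ℝ) - 1) / 2 - m * L = L * (((L : ℝ) - 1) / 2 - m) := by ring
    rw [h2]
    have h3 : (x ^ 2 / 2) * (x ^ 2 / 8) ≤ L * (((L : ℝ) - 1) / 2 - m) :=
      mul_le_mul hLx2 h1 (by positivity) (by positivity)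
    have h4 : (x ^ 2 / 2) * (x ^ 2 / 8) = x ^ 4 / 16 := by ring
    linarith
  have hS : (Sd d : ℝ) ≤ ε * E := by
    have h1 : (Sd d : ℝ) ≤ x ^ 3 := by
      rw [hx]
      exact_mod_cast sd_le d
    refine h1.trans ?_
    have h2 : 16 * (m : ℝ) ≤ x * ε := by
      rw [div_le_iff₀ hε] at hd2
      nlinarith
    have h3 : 16 * (m : ℝ) * x ^ 3 ≤ ε * x ^ 4 := by
      have := mul_le_mul_of_nonneg_right h2 (show 0 ≤ x ^ 3 by positivity)
      nlinarith
    have h4 : ε * x ^ 4 ≤ ε * (16 * (m * E)) := by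
      refine mul_le_mul_of_nonneg_left ?_ hε.le
      linarith
    have h5 : (16 * (m : ℝ)) * x ^ 3 ≤ (16 * (m : ℝ)) * (ε * E) := by nlinarith
    exact le_of_mul_le_mul_left h5 (by positivity)
  have hE0 : 1 ≤ E := by
    by_contra hcon
    have : E = 0 := by omega
    rw [this] at hEx
    have : (0 : ℝ) < x ^ 4 / 16 := by positivity
    simp at hEx
    linarith
  refine ⟨d, p * (L.factorial : ℝ), fun N hN => ?_⟩
  have hW : ∃ k : ℕ, L.factorial * N ^ Sd d < p ^ (k * E) := by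
    refine ⟨L.factorial * N ^ Sd d, ?_⟩
    have h1 : L.factorial * N ^ Sd d ≤ L.factorial * N ^ Sd d * E := Nat.le_mul_of_pos_right _ hE0
    exact lt_of_le_of_lt h1 (Nat.lt_pow_self hp.one_lt)
  classical
  have hk := Nat.find_spec hW
  have hmin := fun j hj => Nat.find_min hW (m := j) hj
  obtain ⟨k, hkdef⟩ : ∃ k, k = Nat.find hW := ⟨_, rfl⟩
  rw [← hkdef] at hk hmin
  refine ⟨k, hk, ?_⟩
  have hWpos : 1 ≤ L.factorial * N ^ Sd d :=
    Nat.mul_pos (Nat.factorial_pos _) (pow_pos (by omega) _)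
  rcases k with _ | k
  · rw [zero_mul, pow_zero] at hk
    omega
  · have h1 := hmin k (Nat.lt_succ_self k)
    rw [not_lt] at h1
    have hNr : (1 : ℝ) ≤ N := by exact_mod_cast hN
    have hf1 : (1 : ℝ) ≤ (L.factorial : ℝ) := by exact_mod_cast Nat.factorial_pos L
    have h2 : ((p : ℝ) ^ k) ^ E ≤ ((L.factorial : ℝ) * (N : ℝ) ^ ε) ^ E := by
      have h3 : ((p : ℝ) ^ k) ^ E ≤ (L.factorial : ℝ) * (N : ℝ) ^ Sd d := by
        rw [← pow_mul]
        exact_mod_cast h1
      refine h3.trans ?_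
      rw [mul_pow]
      refine mul_le_mul (le_self_pow₀ hf1 (by omega)) ?_ (by positivity) (by positivity)
      rw [← Real.rpow_natCast, ← Real.rpow_natCast, ← Real.rpow_mul (by positivity)]
      exact Real.rpow_le_rpow_of_exponent_le hNr hS
    have h4 : (p : ℝ) ^ k ≤ (L.factorial : ℝ) * (N : ℝ) ^ ε :=
      (pow_le_pow_iff_left₀ (by positivity) (by positivity) (by omega)).mp h2
    rw [pow_succ]
    have hp0 : (0 : ℝ) ≤ p := Nat.cast_nonneg _
    nlinarith

end Pool.Agent.LPW.H52
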