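import Pool.Agent.LPW.StmtsS

set_option autoImplicit false

namespace Pool.Agent.LPW.H52

open Pool.Agent.LPW

theorem sum_set (m L : ℕ) : ∀ S : Finset (ℕ × Fin m), S.card = L → ee m L ≤ ∑ x ∈ S, x.1 := by
  classical
  induction L with
  | zero =>
    intro S _
    unfold ee
    rw [Finset.range_zero, Finset.sum_empty]
    exact Nat.zero_le _
  | succ L ih =>
    intro S hS
    have hne : S.Nonempty := by
      rw [← Finset.card_pos, hS]
      exact Nat.succ_pos L
    obtain ⟨x, hx, hmax⟩ := Finset.exists_max_image S (fun x => x.1) hne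
    have hm : 0 < m := Fin.pos x.2
    have h1 : L / m ≤ x.1 := by
      have h2 : S ⊆ Finset.range (x.1 + 1) ×ˢ (Finset.univ : Finset (Fin m)) := by
        intro y hy
        rw [Finset.mem_product, Finset.mem_range]
        exact ⟨Nat.lt_succ_of_le (hmax y hy), Finset.mem_univ _⟩
      have h3 := Finset.card_le_card h2
      rw [hS, Finset.card_product, Finset.card_range, Finset.card_univ, Fintype.card_fin] at h3
      exact Nat.lt_succ_iff.mp ((Nat.div_lt_iff_lt_mul hm).mpr h3)
    have h4 := ih (S.erase x) (by rw [Finset.card_erase_of_mem hx, hS]; rfl)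
    have h5 : ee m (L + 1) = ee m L + L / m := by
      unfold ee
      rw [Finset.sum_range_succ]
    rw [h5, ← Finset.sum_erase_add S (fun x => x.1) hx]
    exact Nat.add_le_add h4 h1

theorem sum : SumStmt := by
  classical
  intro m L τ hτ
  have h1 := sum_set m L (Finset.univ.image τ)
    (by rw [Finset.card_image_of_injective _ hτ, Finset.card_univ, Fintype.card_fin])
  rw [Finset.sum_image (fun a _ b _ h => hτ h)] at h1
  exact h1

end Pool.Agent.LPW.H52
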